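import Mathlib

namespace Pool.Agent.Results.MP_670c4f_al.OddRelationIndex

open Equiv

theorem map_one' {Ω : Type*} (x : Finset Ω) : x.map (1 : Perm Ω).toEmbedding = x := by
  ext y; simp; rfl

theorem map_mul' {Ω : Type*} (g h : Perm Ω) (x : Finset Ω) :
    x.map (g * h).toEmbedding = (x.map h.toEmbedding).map g.toEmbedding := by
  ext y; simp; rfl

/-- The invariance group `𝒢(R)` of a relation `R` (a family of subsets of the finite set `Ω`):
all permutations `g` with `x^g ∈ R` for all `x ∈ R`. -/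
def invGroup {Ω : Type*} [Finite Ω] (R : Set (Finset Ω)) : Subgroup (Perm Ω) where
  carrier := {g | ∀ x ∈ R, x.map g.toEmbedding ∈ R}
  one_mem' := by
    intro x hx
    rw [map_one']; exact hx
  mul_mem' := by
    intro g h hg hh x hx
    rw [map_mul']
    exact hg _ (hh _ hx)
  inv_mem' := by
    intro g hg
    have hpow : ∀ n : ℕ, ∀ x ∈ R, x.map (g ^ n).toEmbedding ∈ R := by
      intro n
      induction n with
      | zero =>
        intro x hx
        rw [pow_zero, map_one']; exact hx
      | succ n ih =>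
        intro x hx
        rw [pow_succ', map_mul']
        exact hg _ (ih _ hx)
    have h1 : g⁻¹ = g ^ (orderOf g - 1) := by
      have hpos : 0 < orderOf g := orderOf_pos g
      rw [inv_eq_iff_mul_eq_one, ← pow_succ', Nat.sub_add_cancel hpos, pow_orderOf_eq_one]
    rw [h1]
    exact hpow _

/-- The relation index `r(G)`: the least index `|𝒢(R) : G|` over all relations `R` on `Ω`
with `G ⊆ 𝒢(R)`. -/
noncomputable def relationIndex {Ω : Type*} [Finite Ω] (G : Subgroup (Perm Ω)) : ℕ :=
  sInf {n | ∃ R : Set (Finset Ω), G ≤ invGroup R ∧ n = G.relIndex (invGroup R)}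

/-- `G` is imprimitive: it is transitive on `Ω` and preserves a partition of `Ω` (given as an
equivalence relation) which is neither the partition into singletons nor `{Ω}`. -/
def IsImprimitive {Ω : Type*} (G : Subgroup (Perm Ω)) : Prop :=
  (∀ x y : Ω, ∃ g ∈ G, g x = y) ∧
  ∃ r : Setoid Ω, (∀ g ∈ G, ∀ x y, r x y ↔ r (g x) (g y)) ∧ r ≠ ⊥ ∧ r ≠ ⊤

/-! ### The example -/

/-- The set being acted on: 3 classes, each consisting of 3 blocks of size 4. -/
abbrev Om : Type := ZMod 3 × ZMod 3 × Fin 4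

/-- The type of a 2-subset of `Fin 4`: which of the three perfect matchings contains it. -/
def mt (x : Finset (Fin 4)) : ZMod 3 :=
  if x = {0, 1} ∨ x = {2, 3} then 0 else if x = {0, 2} ∨ x = {1, 3} then 1 else 2

/-- `a` acts on the types of 2-subsets as `z ↦ e z + t`. -/
def Act (a : Perm (Fin 4)) (e t : ZMod 3) : Prop :=
  ∀ x : Finset (Fin 4), x.card = 2 → mt (x.map a.toEmbedding) = e * mt x + t

instance (a : Perm (Fin 4)) (e t : ZMod 3) : Decidable (Act a e t) := by
  unfold Act; infer_instance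

set_option maxRecDepth 100000 in
theorem F3 : ∀ a : Perm (Fin 4), ∃ e t : ZMod 3, (e = 1 ∨ e = -1) ∧ Act a e t := by
  decide


set_option maxRecDepth 100000 in
theorem F1 : ∀ x y : Finset (Fin 4), x.card = 2 → y.card = 2 →
    ∃ (a : Perm (Fin 4)) (t : ZMod 3), Act a 1 t ∧ x.map a.toEmbedding = y := by
  decide

set_option maxRecDepth 100000 in
theorem F2 : ∀ x : Finset (Fin 4), x.card ≠ 2 →
    ∃ a : Perm (Fin 4), Act a 1 1 ∧ x.map a.toEmbedding = x := by
  decide

set_option maxRecDepth 100000 in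
theorem F4 : ∀ b c : Fin 4, ∃ a : Perm (Fin 4), Act a 1 0 ∧ a b = c := by
  decide

set_option maxRecDepth 100000 in
theorem F5 : ∀ z : ZMod 3, ∃ x : Finset (Fin 4), x.card = 2 ∧ mt x = z := by
  decide

theorem F6 : ∀ n : ℕ, n ≤ 4 → ∃ x : Finset (Fin 4), x.card = n := by
  intro n hn
  interval_cases n
  · exact ⟨∅, rfl⟩
  · exact ⟨{0}, rfl⟩
  · exact ⟨{0, 1}, rfl⟩
  · exact ⟨{0, 1, 2}, rfl⟩
  · exact ⟨Finset.univ, rfl⟩

theorem act_one : Act 1 1 0 := by
  intro x _
  rw [map_one']; simp

theorem act_mul {a b : Perm (Fin 4)} {t u : ZMod 3} (ha : Act a 1 t) (hb : Act b 1 u) :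
    Act (a * b) 1 (u + t) := by
  intro x hx
  rw [map_mul', ha _ (by simpa using hx), hb _ hx]
  ring

theorem act_unique {a : Perm (Fin 4)} {t u : ZMod 3} (ha : Act a 1 t) (hb : Act a 1 u) :
    t = u := by
  have h1 := ha {0, 1} rfl
  have h2 := hb {0, 1} rfl
  rw [h1] at h2
  simpa using h2

/-- `g` is the permutation `(j, p, b) ↦ (j + k, p + h j, a j p b)`. -/
def Form (g : Perm Om) (k : ZMod 3) (h : ZMod 3 → ZMod 3) (a : ZMod 3 → ZMod 3 → Perm (Fin 4)) :
    Prop := ∀ j p b, g (j, p, b) = (j + k, p + h j, a j p b)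

/-- The data `(k, h, a, t, s)` describe an element of the big group `W`. -/
def IsW (g : Perm Om) (k : ZMod 3) (h : ZMod 3 → ZMod 3) (a : ZMod 3 → ZMod 3 → Perm (Fin 4))
    (t : ZMod 3 → ZMod 3 → ZMod 3) (s : ZMod 3) : Prop :=
  Form g k h a ∧ (∀ j p, Act (a j p) 1 (t j p)) ∧ ∀ j, ∑ p, t j p = s

theorem IsW.mul {g g' : Perm Om} {k k' h h' a a' t t' s s'}
    (H : IsW g k h a t s) (H' : IsW g' k' h' a' t' s') :
    IsW (g * g') (k' + k) (fun j => h' j + h (j + k'))
      (fun j p => a (j + k') (p + h' j) * a' j p)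
      (fun j p => t' j p + t (j + k') (p + h' j)) (s' + s) := by
  refine ⟨?_, ?_, ?_⟩
  · intro j p b
    rw [Perm.mul_apply, H'.1, H.1]
    simp [Perm.mul_apply, add_assoc]
  · intro j p
    exact act_mul (H.2.1 _ _) (H'.2.1 _ _)
  · intro j
    rw [Finset.sum_add_distrib, H'.2.2 j]
    congr 1
    rw [← H.2.2 (j + k')]
    exact Equiv.sum_comp (Equiv.addRight (h' j)) (fun p => t (j + k') p)

theorem IsW.chi_mul {h h' : ZMod 3 → ZMod 3} {k' : ZMod 3} :
    ∑ j, (h' j + h (j + k')) = ∑ j, h' j + ∑ j, h j := by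
  rw [Finset.sum_add_distrib]
  congr 1
  exact Equiv.sum_comp (Equiv.addRight k') (fun p => h p)

theorem IsW.unique {g : Perm Om} {k k' h h' a a' t t' s s'}
    (H : IsW g k h a t s) (H' : IsW g k' h' a' t' s') :
    s - ∑ j, h j = s' - ∑ j, h' j := by
  have h1 : ∀ j p b, (j + k, p + h j, a j p b) = (j + k', p + h' j, a' j p b) := by
    intro j p b
    rw [← H.1, ← H'.1]
  have hh : h = h' := by
    funext j
    have := h1 j 0 0
    simp only [Prod.mk.injEq] at this
    simpa using this.2.1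
  have ha : a = a' := by
    funext j p
    ext b
    have := h1 j p b
    simp only [Prod.mk.injEq] at this
    rw [this.2.2]
  have ht : t = t' := by
    funext j p
    have e1 := H.2.1 j p
    have e2 := H'.2.1 j p
    rw [ha] at e1
    exact act_unique e1 e2
  have hs : s = s' := by
    rw [← H.2.2 0, ← H'.2.2 0, ht]
  rw [hh, hs]

/-- the function underlying the permutation with data `(k, h, a)` -/
def mkFun (k : ZMod 3) (h : ZMod 3 → ZMod 3) (a : ZMod 3 → ZMod 3 → Perm (Fin 4)) : Om → Om :=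
  fun q => (q.1 + k, q.2.1 + h q.1, a q.1 q.2.1 q.2.2)

theorem mkFun_inj (k h a) : Function.Injective (mkFun k h a) := by
  rintro ⟨j, p, b⟩ ⟨j', p', b'⟩ H
  simp only [mkFun, Prod.mk.injEq, add_left_inj] at H
  obtain ⟨h1, h2, h3⟩ := H
  subst h1
  have : p = p' := by simpa using h2
  subst this
  have : b = b' := by simpa using h3
  subst this
  rfl

/-- the permutation with data `(k, h, a)` -/
noncomputable def mk (k : ZMod 3) (h : ZMod 3 → ZMod 3) (a : ZMod 3 → ZMod 3 → Perm (Fin 4)) :
    Perm Om :=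
  Equiv.ofBijective (mkFun k h a) (Finite.injective_iff_bijective.1 (mkFun_inj k h a))

theorem mk_form (k h a) : Form (mk k h a) k h a := by
  intro j p b
  rfl

/-- a submonoid of a finite group is a subgroup -/
def subgroupOfMul {α : Type*} [Group α] [Finite α] (P : α → Prop) (h1 : P 1)
    (hm : ∀ x y, P x → P y → P (x * y)) : Subgroup α where
  carrier := {x | P x}
  one_mem' := h1
  mul_mem' := fun {x y} hx hy => hm x y hx hy
  inv_mem' := by
    intro g hg
    have hpow : ∀ n : ℕ, P (g ^ n) := by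
      intro n
      induction n with
      | zero => simpa using h1
      | succ n ih => rw [pow_succ]; exact hm _ _ ih hg
    have h1 : g⁻¹ = g ^ (orderOf g - 1) := by
      have hpos : 0 < orderOf g := orderOf_pos g
      rw [inv_eq_iff_mul_eq_one, ← pow_succ', Nat.sub_add_cancel hpos, pow_orderOf_eq_one]
    show P g⁻¹
    rw [h1]
    exact hpow _

theorem isW_one : IsW 1 0 (fun _ => 0) (fun _ _ => 1) (fun _ _ => 0) 0 := by
  refine ⟨?_, fun _ _ => act_one, ?_⟩
  · intro j p b; simp
  · intro j; simp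

/-- The relation group `W`. -/
def W : Subgroup (Perm Om) :=
  subgroupOfMul (fun g => ∃ k h a t s, IsW g k h a t s) ⟨_, _, _, _, _, isW_one⟩ (by
    rintro x y ⟨k, h, a, t, s, H⟩ ⟨k', h', a', t', s', H'⟩
    exact ⟨_, _, _, _, _, H.mul H'⟩)

theorem mem_W {g : Perm Om} : g ∈ W ↔ ∃ k h a t s, IsW g k h a t s := Iff.rfl

/-- The group `G`, of index 3 in `W`. -/
def G : Subgroup (Perm Om) :=
  subgroupOfMul (fun g => ∃ k h a t s, IsW g k h a t s ∧ s = ∑ j, h j)
    ⟨_, _, _, _, _, isW_one, by simp⟩ (by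
    rintro x y ⟨k, h, a, t, s, H, e⟩ ⟨k', h', a', t', s', H', e'⟩
    refine ⟨_, _, _, _, _, H.mul H', ?_⟩
    rw [IsW.chi_mul, e, e'])

theorem mem_G {g : Perm Om} : g ∈ G ↔ ∃ k h a t s, IsW g k h a t s ∧ s = ∑ j, h j := Iff.rfl

theorem G_le_W : G ≤ W := by
  rintro g ⟨k, h, a, t, s, H, -⟩
  exact ⟨k, h, a, t, s, H⟩

/-- The homomorphism `W → ZMod 3` with kernel `G`. -/
noncomputable def chi : W →* Multiplicative (ZMod 3) where
  toFun w := Multiplicative.ofAdd
    (w.2.choose_spec.choose_spec.choose_spec.choose_spec.choose - ∑ j, w.2.choose_spec.choose j)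
  map_one' := by
    have := (1 : W).2.choose_spec.choose_spec.choose_spec.choose_spec.choose_spec.unique isW_one
    rw [this]
    simp
  map_mul' := by
    intro x y
    have hx := x.2.choose_spec.choose_spec.choose_spec.choose_spec.choose_spec
    have hy := y.2.choose_spec.choose_spec.choose_spec.choose_spec.choose_spec
    have := (x * y).2.choose_spec.choose_spec.choose_spec.choose_spec.choose_spec.unique (hx.mul hy)
    rw [this, IsW.chi_mul, ← ofAdd_add]
    congr 1
    ring

theorem chi_eq {w : W} {k h a t s} (H : IsW (w : Perm Om) k h a t s) :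
    chi w = Multiplicative.ofAdd (s - ∑ j, h j) := by
  have := w.2.choose_spec.choose_spec.choose_spec.choose_spec.choose_spec.unique H
  show Multiplicative.ofAdd _ = _
  rw [this]

theorem mem_G_iff {w : W} : (w : Perm Om) ∈ G ↔ chi w = 1 := by
  constructor
  · rintro ⟨k, h, a, t, s, H, e⟩
    rw [chi_eq H, e]; simp
  · intro hw
    obtain ⟨k, h, a, t, s, H⟩ := w.2
    refine ⟨k, h, a, t, s, H, ?_⟩
    rw [chi_eq H] at hw
    have : s - ∑ j, h j = 0 := Multiplicative.ofAdd.injective hw
    exact sub_eq_zero.1 this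


/-! ### Sections -/

/-- the part of `x` in the block `(j, p)` -/
def sec (x : Finset Om) (j p : ZMod 3) : Finset (Fin 4) :=
  Finset.univ.filter (fun b => (j, p, b) ∈ x)

theorem mem_sec {x : Finset Om} {j p b} : b ∈ sec x j p ↔ (j, p, b) ∈ x := by
  simp [sec]

theorem ext_sec {x y : Finset Om} (H : ∀ j p, sec x j p = sec y j p) : x = y := by
  ext ⟨j, p, b⟩
  rw [← mem_sec, H, mem_sec]

theorem card_sec (x : Finset Om) : x.card = ∑ j, ∑ p, (sec x j p).card := by
  have h1 : x.card = ∑ q : Om, if q ∈ x then 1 else 0 := by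
    rw [Finset.sum_ite_mem, Finset.univ_inter, Finset.card_eq_sum_ones]
  rw [h1, Fintype.sum_prod_type]
  refine Finset.sum_congr rfl fun j _ => ?_
  rw [Fintype.sum_prod_type]
  refine Finset.sum_congr rfl fun p _ => ?_
  rw [sec, Finset.card_filter]

/-- sections of the image of a set under a permutation preserving blocks -/
theorem sec_map {g : Perm Om} {σ1 σ2 : ZMod 3 → ZMod 3 → ZMod 3}
    {a : ZMod 3 → ZMod 3 → Perm (Fin 4)}
    (H : ∀ j p b, g (j, p, b) = (σ1 j p, σ2 j p, a j p b)) (x : Finset Om) (j p : ZMod 3) :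
    sec (x.map g.toEmbedding) (σ1 j p) (σ2 j p) = (sec x j p).map (a j p).toEmbedding := by
  ext b
  rw [mem_sec]
  constructor
  · intro hb
    rw [Finset.mem_map] at hb
    obtain ⟨⟨j', p', b'⟩, h1, h2⟩ := hb
    have h3 : g (j', p', b') = g (j, p, (a j p).symm b) := by
      rw [H j p]
      simpa using h2
    have h4 := g.injective h3
    simp only [Prod.mk.injEq] at h4
    obtain ⟨rfl, rfl, h5⟩ := h4
    rw [Finset.mem_map]
    refine ⟨b', mem_sec.2 h1, ?_⟩
    rw [h5]; simp
  · intro hb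
    rw [Finset.mem_map] at hb
    obtain ⟨b', h1, h2⟩ := hb
    rw [Finset.mem_map]
    refine ⟨(j, p, b'), mem_sec.1 h1, ?_⟩
    show g (j, p, b') = _
    rw [H]
    have : a j p b' = b := h2
    rw [this]

theorem sec_map_form {g : Perm Om} {k h a} (H : Form g k h a) (x : Finset Om) (j p : ZMod 3) :
    sec (x.map g.toEmbedding) (j + k) (p + h j) = (sec x j p).map (a j p).toEmbedding :=
  sec_map (σ1 := fun j _ => j + k) (σ2 := fun j p => p + h j) H x j p

/-! ### `G` and `W` have the same orbits on subsets -/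

theorem stab (x : Finset Om) : ∃ v : W, x.map (v : Perm Om).toEmbedding = x ∧ chi v ≠ 1 := by
  by_cases hx : ∀ j, ∃ p, (sec x j p).card ≠ 2
  · choose p0 hp0 using hx
    choose a0 ha0 ha0' using fun j => F2 _ (hp0 j)
    let a : ZMod 3 → ZMod 3 → Perm (Fin 4) := fun j p => if p = p0 j then a0 j else 1
    let t : ZMod 3 → ZMod 3 → ZMod 3 := fun j p => if p = p0 j then 1 else 0
    have H : IsW (mk 0 (fun _ => 0) a) 0 (fun _ => 0) a t 1 := by
      refine ⟨mk_form _ _ _, ?_, ?_⟩
      · intro j p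
        by_cases h : p = p0 j
        · simp only [a, t, h, if_true]; exact ha0 j
        · simp only [a, t, h, if_false]; exact act_one
      · intro j
        simp [t]
    refine ⟨⟨_, _, _, _, _, _, H⟩, ?_, ?_⟩
    · apply ext_sec
      intro j p
      have h1 := sec_map_form H.1 x j p
      simp only [add_zero] at h1
      rw [h1]
      by_cases h : p = p0 j
      · simp only [a, h, if_true]; exact ha0' j
      · simp only [a, h, if_false]; exact map_one' _
    · rw [chi_eq H]
      simp only [Finset.sum_const_zero, sub_zero, ne_eq]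
      decide
  · push Not at hx
    obtain ⟨j0, hj0⟩ := hx
    choose a0 t0 ha0 ha0' using fun p => F1 _ _ (hj0 p) (hj0 (p + 1))
    have ht0 : ∀ p, t0 p = mt (sec x j0 (p + 1)) - mt (sec x j0 p) := by
      intro p
      have := ha0 p _ (hj0 p)
      rw [ha0'] at this
      rw [this]; ring
    have hsum : ∑ p, t0 p = 0 := by
      simp only [ht0, Finset.sum_sub_distrib]
      rw [sub_eq_zero]
      exact Equiv.sum_comp (Equiv.addRight 1) (fun p => mt (sec x j0 p))
    let a : ZMod 3 → ZMod 3 → Perm (Fin 4) := fun j p => if j = j0 then a0 p else 1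
    let t : ZMod 3 → ZMod 3 → ZMod 3 := fun j p => if j = j0 then t0 p else 0
    let h : ZMod 3 → ZMod 3 := fun j => if j = j0 then 1 else 0
    have H : IsW (mk 0 h a) 0 h a t 0 := by
      refine ⟨mk_form _ _ _, ?_, ?_⟩
      · intro j p
        by_cases h : j = j0
        · simp only [a, t, h, if_true]; exact ha0 p
        · simp only [a, t, h, if_false]; exact act_one
      · intro j
        by_cases h : j = j0
        · simp only [t, h, if_true]; exact hsum
        · simp only [t, h, if_false]; simp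
    refine ⟨⟨_, _, _, _, _, _, H⟩, ?_, ?_⟩
    · apply ext_sec
      intro j p
      have h1 := sec_map_form H.1 x j (p - h j)
      simp only [add_zero, sub_add_cancel] at h1
      rw [h1]
      by_cases hj : j = j0
      · simp only [a, h, hj, if_true, ha0', sub_add_cancel]
      · simp only [a, h, hj, if_false, sub_zero]; exact map_one' _
    · rw [chi_eq H]
      simp only [h, Finset.sum_ite_eq', Finset.mem_univ, if_true, ne_eq]
      decide

theorem exists_pow : ∀ c d : ZMod 3, d ≠ 0 → ∃ n : Fin 3, c + (n : ℕ) • d = 0 := by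
  decide

theorem W_le_of_G_le {R : Set (Finset Om)} (hG : G ≤ invGroup R) : W ≤ invGroup R := by
  intro w hw x hx
  obtain ⟨v, hv1, hv2⟩ := stab x
  obtain ⟨n, hn⟩ := exists_pow (Multiplicative.toAdd (chi ⟨w, hw⟩)) (Multiplicative.toAdd (chi v))
    (fun h => hv2 (Multiplicative.toAdd.injective h))
  have hpow : ∀ n : ℕ, x.map ((v : Perm Om) ^ n).toEmbedding = x := by
    intro n
    induction n with
    | zero => rw [pow_zero, map_one']
    | succ n ih => rw [pow_succ, map_mul', hv1, ih]
  have hmem : (((⟨w, hw⟩ * v ^ (n : ℕ) : W)) : Perm Om) ∈ G := by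
    rw [mem_G_iff, map_mul, map_pow]
    exact Multiplicative.toAdd.injective hn
  have := hG hmem x hx
  simp only [Subgroup.coe_mul, SubmonoidClass.coe_pow] at this
  rw [map_mul', hpow] at this
  exact this

theorem relIndex_G_W : G.relIndex W = 3 := by
  have h1 : G.subgroupOf W = chi.ker := by
    ext w
    rw [Subgroup.mem_subgroupOf, MonoidHom.mem_ker]
    exact mem_G_iff
  rw [Subgroup.relIndex, h1, Subgroup.index_ker]
  have h2 : chi.range = ⊤ := by
    rw [MonoidHom.range_eq_top]
    intro z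
    let h : ZMod 3 → ZMod 3 := fun j => if j = 0 then - Multiplicative.toAdd z else 0
    have H : IsW (mk 0 h (fun _ _ => 1)) 0 h (fun _ _ => 1) (fun _ _ => 0) 0 := by
      refine ⟨mk_form _ _ _, fun _ _ => act_one, ?_⟩
      intro j; simp
    refine ⟨⟨_, _, _, _, _, _, H⟩, ?_⟩
    rw [chi_eq H]
    simp [h]
  rw [h2, Nat.card_congr (Subgroup.topEquiv).toEquiv, Nat.card_congr Multiplicative.toAdd,
    Nat.card_zmod]


/-! ### `W` is a relation group -/

/-- the block `(j, p)` -/
def blk (j p : ZMod 3) : Finset Om := Finset.univ.filter (fun q => q.1 = j ∧ q.2.1 = p)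

theorem mem_blk {j p : ZMod 3} {q : Om} : q ∈ blk j p ↔ q.1 = j ∧ q.2.1 = p := by
  simp [blk]

theorem sec_blk (j p j' p' : ZMod 3) :
    sec (blk j p) j' p' = if j' = j ∧ p' = p then Finset.univ else ∅ := by
  ext b
  rw [mem_sec, mem_blk]
  by_cases h : j' = j ∧ p' = p
  · simp [h]
  · simp [h]

theorem blk_card (j p : ZMod 3) : (blk j p).card = 4 := by
  revert j p; decide

/-- the condition on the vector of class sums -/
def Qc (v : ZMod 3 → ZMod 3) : Prop := v 0 + v 1 + v 2 = 1 ∨ (v 0 = v 1 ∧ v 1 = v 2)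

instance (v : ZMod 3 → ZMod 3) : Decidable (Qc v) := by unfold Qc; infer_instance

/-- blocks -/
def R1 : Set (Finset Om) := {x | ∃ j p, x = blk j p}

/-- sets encoding the cyclic structure of classes and of the blocks in a class -/
def R2 : Set (Finset Om) := {x | ∃ j0 c, ∀ p, (sec x j0 p).card = (p + c).val ∧
  (sec x (j0 + 1) p).card = 3 ∧ (sec x (j0 + 2) p).card = 4}

/-- sets meeting each block in two points, with class sums satisfying `Qc` -/
def R3 : Set (Finset Om) := {x | (∀ j p, (sec x j p).card = 2) ∧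
  Qc (fun j => ∑ p, mt (sec x j p))}

/-- the relation -/
def R : Set (Finset Om) := R1 ∪ (R2 ∪ R3)

theorem R1_card {x : Finset Om} (hx : x ∈ R1) : x.card = 4 := by
  obtain ⟨j, p, rfl⟩ := hx
  exact blk_card j p

theorem sum3 {M : Type*} [AddCommMonoid M] (f : ZMod 3 → M) (j : ZMod 3) :
    ∑ i, f i = f j + f (j + 1) + f (j + 2) := by
  have h1 : ∀ f : ZMod 3 → M, ∑ i, f i = f 0 + f 1 + f 2 := fun f => Fin.sum_univ_three f
  have h2 : ∑ i, f i = ∑ i, f (i + j) := (Equiv.sum_comp (Equiv.addRight j) f).symm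
  rw [h2, h1, zero_add, add_comm 1 j, add_comm 2 j]

theorem val_sum (c : ZMod 3) : ∑ p : ZMod 3, (p + c).val = 3 := by
  revert c; decide

theorem R2_card {x : Finset Om} (hx : x ∈ R2) : x.card = 24 := by
  obtain ⟨j0, c, H⟩ := hx
  rw [card_sec, sum3 _ j0]
  have h1 : ∑ p, (sec x j0 p).card = 3 :=
    (Finset.sum_congr rfl fun p _ => (H p).1).trans (val_sum c)
  have h2 : ∑ p, (sec x (j0 + 1) p).card = 9 := by
    rw [Finset.sum_congr rfl fun p _ => (H p).2.1]
    simp
  have h3 : ∑ p, (sec x (j0 + 2) p).card = 12 := by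
    rw [Finset.sum_congr rfl fun p _ => (H p).2.2]
    simp
  rw [h1, h2, h3]

theorem R3_card {x : Finset Om} (hx : ∀ j p, (sec x j p).card = 2) : x.card = 18 := by
  rw [card_sec]
  simp [hx]

theorem Qc_shift : ∀ (k : ZMod 3) (v : ZMod 3 → ZMod 3), Qc (fun j => v (j + k)) ↔ Qc v := by
  have h : ∀ (a b c : ZMod 3), (b + c + a = 1 ∨ (b = c ∧ c = a)) ↔ (a + b + c = 1 ∨ (a = b ∧ b = c))
      := by decide
  have h' : ∀ (a b c : ZMod 3), (c + a + b = 1 ∨ (c = a ∧ a = b)) ↔ (a + b + c = 1 ∨ (a = b ∧ b = c))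
      := by decide
  intro k v
  unfold Qc
  obtain rfl | rfl | rfl : k = 0 ∨ k = 1 ∨ k = 2 := by revert k; decide
  · simp
  · exact h (v 0) (v 1) (v 2)
  · exact h' (v 0) (v 1) (v 2)

theorem Qc_add (s : ZMod 3) (v : ZMod 3 → ZMod 3) : Qc (fun j => v j + s) ↔ Qc v := by
  have h : ∀ (a b c s : ZMod 3), ((a + s) + (b + s) + (c + s) = 1 ∨
      (a + s = b + s ∧ b + s = c + s)) ↔ (a + b + c = 1 ∨ (a = b ∧ b = c)) := by decide
  exact h _ _ _ _

theorem W_le : W ≤ invGroup R := by
  rintro g ⟨k, h, a, t, s, H⟩ x hx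
  have hs := fun j p => sec_map_form H.1 x j p
  rcases hx with hx | hx | hx
  · left
    obtain ⟨j, p, rfl⟩ := hx
    refine ⟨j + k, p + h j, ?_⟩
    apply ext_sec
    intro j' p'
    have h1 := hs (j' - k) (p' - h (j' - k))
    simp only [sub_add_cancel] at h1
    rw [h1, sec_blk, sec_blk]
    by_cases hc : j' = j + k ∧ p' = p + h j
    · obtain ⟨rfl, rfl⟩ := hc
      simp
    · rw [if_neg hc, if_neg]
      · simp
      · rintro ⟨e1, e2⟩
        apply hc
        have e3 : j' = j + k := by rw [← e1]; ring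
        refine ⟨e3, ?_⟩
        rw [e1] at e2
        rw [← e2]; ring
  · right; left
    obtain ⟨j0, c, hc⟩ := hx
    refine ⟨j0 + k, c - h j0, ?_⟩
    intro p
    refine ⟨?_, ?_, ?_⟩
    · have h1 := hs j0 (p - h j0)
      rw [sub_add_cancel] at h1
      rw [h1, Finset.card_map, (hc _).1]
      congr 1; ring
    · have h1 := hs (j0 + 1) (p - h (j0 + 1))
      rw [sub_add_cancel, add_right_comm] at h1
      rw [h1, Finset.card_map, (hc _).2.1]
    · have h1 := hs (j0 + 2) (p - h (j0 + 2))
      rw [sub_add_cancel, add_right_comm] at h1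
      rw [h1, Finset.card_map, (hc _).2.2]
  · right; right
    refine ⟨?_, ?_⟩
    · intro j p
      have h1 := hs (j - k) (p - h (j - k))
      simp only [sub_add_cancel] at h1
      rw [h1, Finset.card_map, hx.1]
    · rw [← Qc_shift k]
      have hx2 := (Qc_add s _).2 hx.2
      convert hx2 using 2 with j
      rw [← H.2.2 j, ← Finset.sum_add_distrib]
      rw [← Equiv.sum_comp (Equiv.addRight (h j))]
      refine Finset.sum_congr rfl fun p _ => ?_
      have h1 := hs j p
      show mt (sec _ (j + k) (p + h j)) = _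
      rw [h1, H.2.1 j p _ (hx.1 j p)]
      ring


theorem mem_map_iff {g : Perm Om} (hg : g ∈ invGroup R) (x : Finset Om) :
    x.map g.toEmbedding ∈ R ↔ x ∈ R := by
  refine ⟨fun h => ?_, fun h => hg x h⟩
  have h1 := (invGroup R).inv_mem hg _ h
  rwa [← map_mul', inv_mul_cancel, map_one'] at h1

set_option maxRecDepth 100000 in
theorem key0 : ∀ e0 e1 e2 t0 t1 t2 : ZMod 3, (e0 = 1 ∨ e0 = -1) → (e1 = 1 ∨ e1 = -1) →
    (e2 = 1 ∨ e2 = -1) →
    (∀ a b c : ZMod 3, (a + b + c = 1 ∨ (a = b ∧ b = c)) ↔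
      ((e0 * a + t0) + (e1 * b + t1) + (e2 * c + t2) = 1 ∨
        (e0 * a + t0 = e1 * b + t1 ∧ e1 * b + t1 = e2 * c + t2))) →
    e0 = 1 ∧ e1 = 1 ∧ e2 = 1 ∧ t0 = t1 ∧ t1 = t2 := by
  decide +kernel

theorem key (e τ : ZMod 3 → ZMod 3) (he : ∀ j, e j = 1 ∨ e j = -1)
    (H : ∀ v : ZMod 3 → ZMod 3, Qc v ↔ Qc (fun j => e j * v j + τ j)) :
    (∀ j, e j = 1) ∧ ∀ j, τ j = τ 0 := by
  have h1 := key0 (e 0) (e 1) (e 2) (τ 0) (τ 1) (τ 2) (he 0) (he 1) (he 2) (by
    intro a b c
    exact H (fun j => if j = 0 then a else if j = 1 then b else c))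
  have h3 : ∀ j : ZMod 3, j = 0 ∨ j = 1 ∨ j = 2 := by decide
  obtain ⟨g0, g1, g2, g3, g4⟩ := h1
  constructor
  · intro j
    rcases h3 j with rfl | rfl | rfl
    · exact g0
    · exact g1
    · exact g2
  · intro j
    rcases h3 j with rfl | rfl | rfl
    · rfl
    · exact g3.symm
    · rw [← g4, ← g3]

theorem ne123 : (∀ j : ZMod 3, j + 1 ≠ j) ∧ (∀ j : ZMod 3, j + 2 ≠ j) ∧
    (∀ j : ZMod 3, j + 2 ≠ j + 1) ∧ ∀ j i : ZMod 3, i = j ∨ i = j + 1 ∨ i = j + 2 := by
  decide

theorem le_W : invGroup R ≤ W := by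
  intro g hg
  -- blocks are mapped to blocks
  have hblk : ∀ j p, ∃ j' p', (blk j p).map g.toEmbedding = blk j' p' := by
    intro j p
    have h1 : (blk j p).map g.toEmbedding ∈ R := hg _ (Or.inl ⟨j, p, rfl⟩)
    have h2 : ((blk j p).map g.toEmbedding).card = 4 := by rw [Finset.card_map, blk_card]
    rcases h1 with h1 | h1 | h1
    · exact h1
    · rw [R2_card h1] at h2; omega
    · rw [R3_card h1.1] at h2; omega
  choose σ1 σ2 hσ using hblk
  have hg1 : ∀ j p b, (g (j, p, b)).1 = σ1 j p ∧ (g (j, p, b)).2.1 = σ2 j p := by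
    intro j p b
    have h1 : g (j, p, b) ∈ (blk j p).map g.toEmbedding :=
      Finset.mem_map_of_mem g.toEmbedding (mem_blk.2 ⟨rfl, rfl⟩)
    rw [hσ, mem_blk] at h1
    exact h1
  have hinj : ∀ j p, Function.Injective (fun b => (g (j, p, b)).2.2) := by
    intro j p b b' hbb
    have h1 : g (j, p, b) = g (j, p, b') := by
      ext1
      · rw [(hg1 j p b).1, (hg1 j p b').1]
      · ext1
        · rw [(hg1 j p b).2, (hg1 j p b').2]
        · exact hbb
    have h2 := g.injective h1
    simpa using h2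
  let a : ZMod 3 → ZMod 3 → Perm (Fin 4) := fun j p =>
    Equiv.ofBijective _ (Finite.injective_iff_bijective.1 (hinj j p))
  have hga : ∀ j p b, g (j, p, b) = (σ1 j p, σ2 j p, a j p b) := by
    intro j p b
    rw [← (hg1 j p b).1, ← (hg1 j p b).2]
    rfl
  -- the cyclic structure
  have hcyc : ∀ j0 : ZMod 3, ∃ j' c : ZMod 3, (∀ p, σ1 j0 p = j') ∧ (∀ p, σ2 j0 p = p + c) ∧
      (∀ p, σ1 (j0 + 1) p = j' + 1) := by
    intro j0
    -- a set realizing the pattern
    choose Y hY using F6
    let n : ZMod 3 → ZMod 3 → ℕ := fun j p => if j = j0 then p.val else if j = j0 + 1 then 3 else 4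
    have hn : ∀ j p, n j p ≤ 4 := by
      intro j p
      simp only [n]
      have := ZMod.val_lt p
      split_ifs <;> omega
    let x : Finset Om := Finset.univ.filter (fun q => q.2.2 ∈ Y (n q.1 q.2.1) (hn _ _))
    have hx : ∀ j p, sec x j p = Y (n j p) (hn _ _) := by
      intro j p
      ext b
      rw [mem_sec]
      simp [x]
    have hne1 : j0 + 1 ≠ j0 := ne123.1 j0
    have hne2 : j0 + 2 ≠ j0 := ne123.2.1 j0
    have hne3 : j0 + 2 ≠ j0 + 1 := ne123.2.2.1 j0
    have hcard : ∀ j p, (sec x j p).card = n j p := by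
      intro j p
      rw [hx, hY]
    have hxR2 : x ∈ R2 := by
      refine ⟨j0, 0, fun p => ⟨?_, ?_, ?_⟩⟩
      · rw [hcard]; simp [n]
      · rw [hcard]; simp only [n]; rw [if_neg hne1]; simp
      · rw [hcard]; simp only [n]; rw [if_neg hne2, if_neg hne3]
    have h1 : x.map g.toEmbedding ∈ R := hg _ (Or.inr (Or.inl hxR2))
    have h2 : (x.map g.toEmbedding).card = 24 := by rw [Finset.card_map, R2_card hxR2]
    have h3 : x.map g.toEmbedding ∈ R2 := by
      rcases h1 with h1 | h1 | h1
      · rw [R1_card h1] at h2; omega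
      · exact h1
      · rw [R3_card h1.1] at h2; omega
    obtain ⟨j', c', H⟩ := h3
    have hs : ∀ j p, (sec (x.map g.toEmbedding) (σ1 j p) (σ2 j p)).card = n j p := by
      intro j p
      rw [sec_map hga, Finset.card_map, hcard]
    have htri : ∀ i : ZMod 3, i = j' ∨ i = j' + 1 ∨ i = j' + 2 := fun i => ne123.2.2.2 j' i
    have hfst : ∀ p, σ1 j0 p = j' := by
      intro p
      have e := hs j0 p
      have e2 : n j0 p = p.val := by simp [n]
      rw [e2] at e
      have hlt := ZMod.val_lt p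
      rcases htri (σ1 j0 p) with h | h | h
      · exact h
      · rw [h, (H _).2.1] at e; omega
      · rw [h, (H _).2.2] at e; omega
    refine ⟨j', -c', hfst, ?_, ?_⟩
    · intro p
      have e := hs j0 p
      have e2 : n j0 p = p.val := by simp [n]
      rw [e2, hfst, (H _).1] at e
      have := ZMod.val_injective 3 e
      rw [← sub_eq_add_neg, eq_sub_iff_add_eq]; exact this
    · intro p
      have e := hs (j0 + 1) p
      have e2 : n (j0 + 1) p = 3 := by simp only [n]; rw [if_neg hne1]; simp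
      rw [e2] at e
      rcases htri (σ1 (j0 + 1) p) with h | h | h
      · rw [h, (H _).1] at e
        have := ZMod.val_lt (σ2 (j0 + 1) p + c')
        omega
      · exact h
      · rw [h, (H _).2.2] at e; omega
  choose K h hK hh hK1 using hcyc
  have hKs : ∀ j, K (j + 1) = K j + 1 := by
    intro j
    rw [← hK (j + 1) 0, hK1]
  have hKk : ∀ j, K j = j + K 0 := by
    intro j
    have h3 : ∀ j : ZMod 3, j = 0 ∨ j = 1 ∨ j = 2 := by decide
    have e1 : K 1 = K 0 + 1 := hKs 0
    have e2 : K 2 = K 1 + 1 := hKs 1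
    rcases h3 j with rfl | rfl | rfl
    · simp
    · rw [e1]; ring
    · rw [e2, e1]; ring
  have hform : Form g (K 0) h a := by
    intro j p b
    rw [hga, hK, hh, hKk]
  -- the actions on the types
  choose e t he ht using fun j p => F3 (a j p)
  choose X hX1 hX2 using F5
  have hmain : ∀ p0 : ZMod 3, (∀ j, e j p0 = 1) ∧ ∀ j, ∑ p, t j p = ∑ p, t 0 p := by
    intro p0
    apply key (fun j => e j p0) (fun j => ∑ p, t j p) (fun j => he j p0)
    intro v
    let f : ZMod 3 → ZMod 3 → ZMod 3 := fun j p => if p = p0 then v j else 0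
    let x : Finset Om := Finset.univ.filter (fun q => q.2.2 ∈ X (f q.1 q.2.1))
    have hx : ∀ j p, sec x j p = X (f j p) := by
      intro j p
      ext b
      rw [mem_sec]
      simp [x]
    have hxc : ∀ j p, (sec x j p).card = 2 := by
      intro j p; rw [hx, hX1]
    have hiff : ∀ y : Finset Om, (∀ j p, (sec y j p).card = 2) →
        (y ∈ R ↔ Qc (fun j => ∑ p, mt (sec y j p))) := by
      intro y hy
      constructor
      · rintro (h1 | h1 | h1)
        · have := R1_card h1
          rw [R3_card hy] at this; omega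
        · have := R2_card h1
          rw [R3_card hy] at this; omega
        · exact h1.2
      · intro h1
        exact Or.inr (Or.inr ⟨hy, h1⟩)
    have hxs : ∀ j, ∑ p, mt (sec x j p) = v j := by
      intro j
      simp [hx, hX2, f]
    have hs := fun j p => sec_map_form hform x j p
    have hyc : ∀ j p, (sec (x.map g.toEmbedding) j p).card = 2 := by
      intro j p
      have h1 := hs (j - K 0) (p - h (j - K 0))
      simp only [sub_add_cancel] at h1
      rw [h1, Finset.card_map, hxc]
    have hys : ∀ j, ∑ p, mt (sec (x.map g.toEmbedding) (j + K 0) p) =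
        e j p0 * v j + ∑ p, t j p := by
      intro j
      rw [← Equiv.sum_comp (Equiv.addRight (h j))]
      have h1 : ∀ p, mt (sec (x.map g.toEmbedding) (j + K 0) (Equiv.addRight (h j) p)) =
          e j p * f j p + t j p := by
        intro p
        show mt (sec _ (j + K 0) (p + h j)) = _
        rw [hs, ht j p _ (hxc j p), hx, hX2]
      rw [Finset.sum_congr rfl fun p _ => h1 p, Finset.sum_add_distrib]
      congr 1
      simp [f]
    have h1 := mem_map_iff hg x
    rw [hiff _ hyc, hiff _ hxc, ← Qc_shift (K 0)] at h1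
    simp only [hys, hxs] at h1
    exact h1.symm
  refine ⟨K 0, h, a, t, ∑ p, t 0 p, hform, ?_, (hmain 0).2⟩
  intro j p
  have := ht j p
  rw [(hmain p).1 j] at this
  exact this

theorem inv_eq_W : invGroup R = W := le_antisymm le_W W_le

theorem relationIndex_G : relationIndex G = 3 := by
  unfold relationIndex
  apply le_antisymm
  · apply Nat.sInf_le
    refine ⟨R, ?_, ?_⟩
    · rw [inv_eq_W]; exact G_le_W
    · rw [inv_eq_W, relIndex_G_W]
  · apply le_csInf
    · exact ⟨_, R, by rw [inv_eq_W]; exact G_le_W, rfl⟩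
    · rintro n ⟨R', hR', rfl⟩
      have hW := W_le_of_G_le hR'
      rw [← Subgroup.relIndex_mul_relIndex G W (invGroup R') G_le_W hW, relIndex_G_W]
      have : W.relIndex (invGroup R') ≠ 0 := Subgroup.index_ne_zero_of_finite
      omega

theorem G_imprimitive : IsImprimitive G := by
  refine ⟨?_, ?_⟩
  · rintro ⟨j, p, b⟩ ⟨j', p', b'⟩
    obtain ⟨a0, ha0, hb⟩ := F4 b b'
    refine ⟨mk (j' - j) (fun _ => p' - p) (fun _ _ => a0), ?_, ?_⟩
    · refine ⟨j' - j, fun _ => p' - p, fun _ _ => a0, fun _ _ => 0, 0,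
        ⟨mk_form _ _ _, fun _ _ => ha0, fun _ => by simp⟩, ?_⟩
      simp only [Finset.sum_const, Finset.card_univ, ZMod.card, nsmul_eq_mul]
      have : ((3 : ℕ) : ZMod 3) = 0 := by decide
      rw [this, zero_mul]
    · rw [mk_form]
      rw [hb]
      simp
  · refine ⟨⟨fun x y => x.1 = y.1 ∧ x.2.1 = y.2.1, ⟨fun _ => ⟨rfl, rfl⟩,
      fun h => ⟨h.1.symm, h.2.symm⟩, fun h h' => ⟨h.1.trans h'.1, h.2.trans h'.2⟩⟩⟩, ?_, ?_, ?_⟩
    · rintro g ⟨k, h, a, t, s, H, -⟩ ⟨j, p, b⟩ ⟨j', p', b'⟩
      show (j = j' ∧ p = p') ↔ ((g (j, p, b)).1 = (g (j', p', b')).1 ∧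
        (g (j, p, b)).2.1 = (g (j', p', b')).2.1)
      rw [H.1, H.1]
      simp only [add_left_inj]
      constructor
      · rintro ⟨rfl, rfl⟩; exact ⟨rfl, rfl⟩
      · rintro ⟨rfl, h2⟩
        exact ⟨rfl, by simpa using h2⟩
    · intro hbot
      have h1 : (⊥ : Setoid Om) (0, 0, 0) (0, 0, 1) := by
        rw [← hbot]; exact ⟨rfl, rfl⟩
      have h2 : ((0, 0, 0) : Om) = (0, 0, 1) := h1
      exact absurd h2 (by decide)
    · intro htop
      have h1 : (⊤ : Setoid Om) (0, 0, 0) (1, 0, 0) := trivial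
      rw [← htop] at h1
      exact absurd h1.1 (by decide)

/-- **Disproof of Q1.** It is not true that `r(G)` is even for every finite imprimitive
permutation group `G` with `r(G) > 1`; there is an imprimitive permutation group of degree 36 with
`r(G) = 3`. -/
theorem result :
    (¬ ∀ (Ω : Type) [Finite Ω] (G : Subgroup (Perm Ω)),
      IsImprimitive G → 1 < relationIndex G → Even (relationIndex G)) ∧
    ∃ (Ω : Type) (_ : Finite Ω) (G : Subgroup (Perm Ω)),
      Nat.card Ω = 36 ∧ IsImprimitive G ∧ relationIndex G = 3 := by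
  refine ⟨?_, Om, inferInstance, G, ?_, G_imprimitive, relationIndex_G⟩
  · intro h
    have h1 := h Om G G_imprimitive (by rw [relationIndex_G]; norm_num)
    rw [relationIndex_G] at h1
    exact absurd h1 (by decide)
  · simp [Om, Nat.card_eq_fintype_card]

end Pool.Agent.Results.MP_670c4f_al.OddRelationIndex
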